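import Mathlib

set_option autoImplicit false

/-! # Entropy of functions on a finite set, in counting form -/

namespace Pool.Agent.Y600.UC

open Finset

variable {ω P Q Z : Type*} [DecidableEq P] [DecidableEq Q] [DecidableEq Z]

/-- the size of the fibre of `p` through `F` -/
def fb (Ω : Finset ω) (p : ω → P) (F : ω) : ℕ := (Ω.filter fun G => p G = p F).card

theorem fb_pos {Ω : Finset ω} (p : ω → P) {F : ω} (hF : F ∈ Ω) : 0 < fb Ω p F :=
  Finset.card_pos.2 ⟨F, by simp [hF]⟩

theorem fb_congr_val {Ω : Finset ω} (p : ω → P) {F G : ω} (h : p F = p G) :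
    fb Ω p F = fb Ω p G := by
  unfold fb
  rw [h]

/-- equivalent functions have the same fibres -/
theorem fb_congr {Ω : Finset ω} {p : ω → P} {q : ω → Q} {F : ω}
    (h : ∀ G ∈ Ω, p G = p F ↔ q G = q F) : fb Ω p F = fb Ω q F := by
  unfold fb
  congr 1
  exact Finset.filter_congr h

/-- the sum of the reciprocal fibre sizes is the number of values -/
theorem sum_inv_fb (Ω : Finset ω) (q : ω → Q) (w : Q → ℝ) :
    ∑ F ∈ Ω, w (q F) / (fb Ω q F : ℝ) = ∑ y ∈ Ω.image q, w y := by
  rw [← Finset.sum_fiberwise_of_maps_to (g := q) (t := Ω.image q)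
    (fun F hF => Finset.mem_image_of_mem q hF)]
  refine Finset.sum_congr rfl fun y hy => ?_
  obtain ⟨F0, hF0, rfl⟩ := Finset.mem_image.1 hy
  have h : ∀ F ∈ Ω.filter (fun F => q F = q F0), w (q F) / (fb Ω q F : ℝ) =
      w (q F0) / (fb Ω q F0 : ℝ) := by
    intro F hF
    have h1 := (Finset.mem_filter.1 hF).2
    rw [fb_congr_val q h1, h1]
  rw [Finset.sum_congr rfl h, Finset.sum_const, nsmul_eq_mul]
  have h2 : ((Ω.filter fun F => q F = q F0).card : ℝ) = (fb Ω q F0 : ℝ) := rfl
  rw [h2]
  have h3 : (0 : ℝ) < (fb Ω q F0 : ℝ) := by exact_mod_cast fb_pos q hF0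
  field_simp

/-- sums over pairs in the same fibre -/
theorem sum_fb_mul (Ω : Finset ω) (p : ω → P) (u : ω → ℝ) :
    ∑ F ∈ Ω, (fb Ω p F : ℝ) * u F = ∑ G ∈ Ω, ∑ F ∈ Ω.filter (fun F => p F = p G), u F := by
  have h1 : ∀ F ∈ Ω, (fb Ω p F : ℝ) * u F = ∑ G ∈ Ω, if p G = p F then u F else 0 := by
    intro F _
    rw [← Finset.sum_filter, Finset.sum_const, nsmul_eq_mul]
    rfl
  rw [Finset.sum_congr rfl h1, Finset.sum_comm]
  refine Finset.sum_congr rfl fun G _ => ?_
  rw [Finset.sum_filter]
  refine Finset.sum_congr rfl fun F _ => ?_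
  simp only [eq_comm]

/-- the entropy increases at most by the logarithm of the number of values on the fibres -/
theorem ent_le_log (Ω : Finset ω) (p : ω → P) (q : ω → Q) (M : ω → ℝ)
    (hqp : ∀ F ∈ Ω, ∀ G ∈ Ω, q F = q G → p F = p G)
    (hMc : ∀ F ∈ Ω, ∀ G ∈ Ω, p F = p G → M F = M G)
    (hM : ∀ F ∈ Ω, (((Ω.filter fun G => p G = p F).image q).card : ℝ) ≤ M F) :
    ∑ F ∈ Ω, (Real.log (fb Ω p F) - Real.log (fb Ω q F)) ≤ ∑ F ∈ Ω, Real.log (M F) := by
  have hM0 : ∀ F ∈ Ω, 0 < M F := by
    intro F hF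
    refine lt_of_lt_of_le ?_ (hM F hF)
    have : 0 < ((Ω.filter fun G => p G = p F).image q).card :=
      Finset.card_pos.2 ⟨q F, Finset.mem_image.2 ⟨F, by simp [hF], rfl⟩⟩
    exact_mod_cast this
  have hterm : ∀ F ∈ Ω, Real.log (fb Ω p F) - Real.log (fb Ω q F) ≤
      Real.log (M F) + ((fb Ω p F : ℝ) * (1 / ((fb Ω q F : ℝ) * M F)) - 1) := by
    intro F hF
    have h1 : (0 : ℝ) < fb Ω p F := by exact_mod_cast fb_pos p hF
    have h2 : (0 : ℝ) < fb Ω q F := by exact_mod_cast fb_pos q hF
    have h3 := hM0 F hF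
    have h4 := Real.log_le_sub_one_of_pos (x := (fb Ω p F : ℝ) * (1 / ((fb Ω q F : ℝ) * M F)))
      (by positivity)
    rw [Real.log_mul h1.ne' (by positivity), one_div, Real.log_inv, Real.log_mul h2.ne' h3.ne'] at h4
    rw [one_div]
    linarith
  refine (Finset.sum_le_sum hterm).trans ?_
  rw [Finset.sum_add_distrib]
  have hkey : ∑ F ∈ Ω, (fb Ω p F : ℝ) * (1 / ((fb Ω q F : ℝ) * M F)) ≤ ∑ F ∈ Ω, (1 : ℝ) := by
    rw [sum_fb_mul]
    refine Finset.sum_le_sum fun G hG => ?_
    have h1 : ∀ F ∈ Ω.filter (fun F => p F = p G), 1 / ((fb Ω q F : ℝ) * M F) =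
        (1 / M G) / (fb (Ω.filter fun F => p F = p G) q F : ℝ) := by
      intro F hF
      obtain ⟨hF1, hF2⟩ := Finset.mem_filter.1 hF
      have e1 : fb (Ω.filter fun F => p F = p G) q F = fb Ω q F := by
        unfold fb
        rw [Finset.filter_filter]
        congr 1
        refine Finset.filter_congr fun H hH => ?_
        constructor
        · exact fun h => h.2
        · intro h
          exact ⟨(hqp H hH F hF1 h).trans hF2, h⟩
      rw [e1, hMc F hF1 G hG hF2]
      field_simp
    rw [Finset.sum_congr rfl h1, sum_inv_fb _ q (fun _ => 1 / M G), Finset.sum_const, nsmul_eq_mul]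
    have h2 := hM G hG
    have h3 := hM0 G hG
    rw [mul_one_div, div_le_one h3]
    exact h2
  have h2 : ∑ F ∈ Ω, ((fb Ω p F : ℝ) * (1 / ((fb Ω q F : ℝ) * M F)) - 1) ≤ 0 := by
    rw [Finset.sum_sub_distrib]
    linarith
  linarith

/-- conditioning reduces entropy -/
theorem ent_submod (Ω : Finset ω) (a : ω → P) (b : ω → Q) (z : ω → Z)
    (hab : ∀ F ∈ Ω, ∀ G ∈ Ω, b F = b G → a F = a G) :
    ∑ F ∈ Ω, (Real.log (fb Ω b F) - Real.log (fb Ω (fun F => (b F, z F)) F)) ≤
      ∑ F ∈ Ω, (Real.log (fb Ω a F) - Real.log (fb Ω (fun F => (a F, z F)) F)) := by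
  have hterm : ∀ F ∈ Ω, Real.log (fb Ω b F) - Real.log (fb Ω (fun F => (b F, z F)) F) ≤
      Real.log (fb Ω a F) - Real.log (fb Ω (fun F => (a F, z F)) F) +
        ((fb Ω b F : ℝ) * ((fb Ω (fun F => (a F, z F)) F : ℝ) /
          ((fb Ω (fun F => (b F, z F)) F : ℝ) * fb Ω a F)) - 1) := by
    intro F hF
    have h1 : (0 : ℝ) < fb Ω b F := by exact_mod_cast fb_pos b hF
    have h2 : (0 : ℝ) < fb Ω a F := by exact_mod_cast fb_pos a hF
    have h3 : (0 : ℝ) < fb Ω (fun F => (a F, z F)) F := by
      exact_mod_cast fb_pos (fun F => (a F, z F)) hF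
    have h4 : (0 : ℝ) < fb Ω (fun F => (b F, z F)) F := by
      exact_mod_cast fb_pos (fun F => (b F, z F)) hF
    have h5 := Real.log_le_sub_one_of_pos (x := (fb Ω b F : ℝ) *
      ((fb Ω (fun F => (a F, z F)) F : ℝ) /
          ((fb Ω (fun F => (b F, z F)) F : ℝ) * fb Ω a F))) (by positivity)
    rw [Real.log_mul h1.ne' (by positivity), Real.log_div h3.ne' (by positivity),
      Real.log_mul h4.ne' h2.ne'] at h5
    linarith
  refine (Finset.sum_le_sum hterm).trans ?_
  rw [Finset.sum_add_distrib]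
  have hkey : ∑ F ∈ Ω, (fb Ω b F : ℝ) * ((fb Ω (fun F => (a F, z F)) F : ℝ) /
      ((fb Ω (fun F => (b F, z F)) F : ℝ) * fb Ω a F)) ≤ ∑ F ∈ Ω, (1 : ℝ) := by
    rw [sum_fb_mul]
    refine Finset.sum_le_sum fun G hG => ?_
    set K := Ω.filter fun F => b F = b G with hK
    have hG0 : (0 : ℝ) < fb Ω a G := by exact_mod_cast fb_pos a hG
    -- the weight of a value of `z`
    let w : Z → ℝ := fun y => ((Ω.filter fun H => a H = a G ∧ z H = y).card : ℝ) / fb Ω a G
    have h1 : ∀ F ∈ K, (fb Ω (fun F => (a F, z F)) F : ℝ) /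
        ((fb Ω (fun F => (b F, z F)) F : ℝ) * fb Ω a F) = w (z F) / (fb K z F : ℝ) := by
      intro F hF
      obtain ⟨hF1, hF2⟩ := Finset.mem_filter.1 hF
      have haF := hab F hF1 G hG hF2
      have e1 : fb Ω (fun F => (b F, z F)) F = fb K z F := by
        unfold fb
        rw [hK, Finset.filter_filter]
        congr 1
        refine Finset.filter_congr fun H _ => ?_
        simp only [Prod.mk.injEq]
        rw [hF2]
      have e2 : fb Ω (fun F => (a F, z F)) F = (Ω.filter fun H => a H = a G ∧ z H = z F).card := by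
        unfold fb
        congr 1
        refine Finset.filter_congr fun H _ => ?_
        simp only [Prod.mk.injEq]
        rw [haF]
      have e3 : fb Ω a F = fb Ω a G := fb_congr_val a haF
      rw [e1, e2, e3]
      simp only [w]
      have h2 : (0 : ℝ) < fb K z F := by exact_mod_cast fb_pos z hF
      field_simp
    rw [Finset.sum_congr rfl h1, sum_inv_fb K z w]
    simp only [w]
    rw [← Finset.sum_div, div_le_one hG0]
    have h3 : ∑ y ∈ K.image z, (Ω.filter fun H => a H = a G ∧ z H = y).card ≤ fb Ω a G := by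
      unfold fb
      have h4 : ∀ y ∈ K.image z, (Ω.filter fun H => a H = a G ∧ z H = y).card =
          ((Ω.filter fun H => a H = a G).filter fun H => z H = y).card := by
        intro y _
        rw [Finset.filter_filter]
      rw [Finset.sum_congr rfl h4]
      calc ∑ y ∈ K.image z, ((Ω.filter fun H => a H = a G).filter fun H => z H = y).card
          = (((Ω.filter fun H => a H = a G).filter fun H => z H ∈ K.image z)).card := by
            rw [Finset.card_eq_sum_card_fiberwise (f := z) (t := K.image z)]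
            · refine Finset.sum_congr rfl fun y hy => ?_
              congr 1
              ext H
              simp only [Finset.mem_filter]
              constructor
              · rintro ⟨h1, h2⟩
                exact ⟨⟨h1, h2 ▸ hy⟩, h2⟩
              · rintro ⟨⟨h1, _⟩, h2⟩
                exact ⟨h1, h2⟩
            · intro H hH
              exact (Finset.mem_filter.1 hH).2
        _ ≤ (Ω.filter fun H => a H = a G).card := Finset.card_filter_le _ _
    exact_mod_cast h3
  have h2 : ∑ F ∈ Ω, ((fb Ω b F : ℝ) * ((fb Ω (fun F => (a F, z F)) F : ℝ) /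
      ((fb Ω (fun F => (b F, z F)) F : ℝ) * fb Ω a F)) - 1) ≤ 0 := by
    rw [Finset.sum_sub_distrib]
    linarith
  linarith

/-- Shearer's inequality for submodular functions -/
theorem shearer_submod {β ι : Type*} [DecidableEq β] (f : Finset β → ℝ)
    (hmono : ∀ S x, f S ≤ f (insert x S))
    (hsub : ∀ S T x, S ⊆ T → f (insert x T) - f T ≤ f (insert x S) - f S)
    (T : Finset β) (I : Finset ι) (c : ι → Finset β) (d : ℕ) (S : Finset β)
    (hcov : ∀ x ∈ S, d ≤ (I.filter fun j => x ∈ c j).card) :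
    d * (f (T ∪ S) - f T) ≤ ∑ j ∈ I, (f (T ∪ (c j ∩ S)) - f T) := by
  classical
  induction S using Finset.induction_on with
  | empty => simp
  | insert x S' hx ih =>
    have ih' := ih fun y hy => hcov y (Finset.mem_insert_of_mem hy)
    have hu : T ∪ insert x S' = insert x (T ∪ S') := Finset.union_insert x T S'
    have hinc : 0 ≤ f (insert x (T ∪ S')) - f (T ∪ S') := sub_nonneg.2 (hmono _ _)
    have hj : ∀ j ∈ I, f (T ∪ (c j ∩ S')) - f T +
        (if x ∈ c j then f (insert x (T ∪ S')) - f (T ∪ S') else 0) ≤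
        f (T ∪ (c j ∩ insert x S')) - f T := by
      intro j _
      by_cases h : x ∈ c j
      · rw [if_pos h, Finset.inter_insert_of_mem h, Finset.union_insert]
        have h1 := hsub (T ∪ (c j ∩ S')) (T ∪ S') x
          (Finset.union_subset_union_right Finset.inter_subset_right)
        linarith
      · rw [if_neg h, Finset.inter_insert_of_notMem h]
        linarith
    refine le_trans ?_ (Finset.sum_le_sum hj)
    rw [Finset.sum_add_distrib, ← Finset.sum_filter, Finset.sum_const, nsmul_eq_mul, hu]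
    have h2 : (d : ℝ) ≤ ((I.filter fun j => x ∈ c j).card : ℝ) := by
      exact_mod_cast hcov x (Finset.mem_insert_self x S')
    have h3 := mul_le_mul_of_nonneg_right h2 hinc
    nlinarith

end Pool.Agent.Y600.UC
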